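import Pool.Agent.Helper589_Four.F10

namespace Pool.Agent.Results.MP_2c9d40_co.FixedPointMovedInvolution

/-- The circulant graph Cay(Z_n, T), for an inverse-closed T without 0. -/
def circ {n : ℕ} (T : Set (ZMod n)) : SimpleGraph (ZMod n) :=
  SimpleGraph.fromRel (fun x y => y - x ∈ T)

/-- The direct product of a graph with K_2. -/
def timesK2 {V : Type} (G : SimpleGraph V) : SimpleGraph (V × Bool) where
  Adj p q := G.Adj p.1 q.1 ∧ p.2 ≠ q.2
  symm := ⟨fun _ _ h => ⟨h.1.symm, h.2.symm⟩⟩
  loopless := ⟨fun _ h => h.2 rfl⟩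

/-- Aut(G × K_2) is isomorphic to Aut(G) × Z_2. -/
def Stable {V : Type} (G : SimpleGraph V) : Prop :=
  Nonempty ((timesK2 G ≃g timesK2 G) ≃* ((G ≃g G) × Multiplicative (ZMod 2)))

/-- Unstable, connected, non-bipartite, and distinct vertices have distinct neighbourhoods. -/
def NontriviallyUnstable {V : Type} (G : SimpleGraph V) : Prop :=
  ¬ Stable G ∧ G.Connected ∧ ¬ G.Colorable 2 ∧
    ∀ u v : V, G.neighborSet u = G.neighborSet v → u = v

/-- Two-fold automorphisms of G. -/
def IsTF {V : Type} (G : SimpleGraph V) (α β : Equiv.Perm V) : Prop :=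
  ∀ u v : V, G.Adj u v ↔ G.Adj (α u) (β v)

/-- The subgroup 2 Z_n. -/
def evens (n : ℕ) : AddSubgroup (ZMod n) := AddSubgroup.zmultiples 2

/-- Unstable, and no nontrivial two-fold automorphism has both parts mapping the even residues
onto themselves. -/
def TypeII {n : ℕ} (G : SimpleGraph (ZMod n)) : Prop :=
  ¬ Stable G ∧ ∀ α β : Equiv.Perm (ZMod n), IsTF G α β → α ≠ β →
    ¬ (α '' (evens n : Set (ZMod n)) = evens n ∧ β '' (evens n : Set (ZMod n)) = evens n)

section TF

variable {V : Type} {G : SimpleGraph V}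

lemma IsTF.refl : IsTF G 1 1 := fun _ _ => Iff.rfl

lemma IsTF.mul {α β γ δ : Equiv.Perm V} (h : IsTF G α β) (h' : IsTF G γ δ) :
    IsTF G (α * γ) (β * δ) := fun u v => (h' u v).trans (h (γ u) (δ v))

lemma IsTF.inv {α β : Equiv.Perm V} (h : IsTF G α β) : IsTF G α⁻¹ β⁻¹ := by
  intro u v
  have := h (α⁻¹ u) (β⁻¹ v)
  simpa using this.symm

lemma IsTF.swap {α β : Equiv.Perm V} (h : IsTF G α β) : IsTF G β α := by
  intro u v
  rw [G.adj_comm u v, h v u, G.adj_comm]

/-- flip of the second coordinate. -/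
def flip (e : Multiplicative (ZMod 2)) (b : Bool) : Bool := if e = 1 then b else !b

lemma flip_mul (e f : Multiplicative (ZMod 2)) (b : Bool) : flip (e * f) b = flip e (flip f b) := by
  revert e f b; decide

lemma flip_one (b : Bool) : flip 1 b = b := by revert b; decide

lemma flip_flip (e : Multiplicative (ZMod 2)) (b : Bool) : flip e (flip e b) = b := by
  revert e b; decide

lemma flip_inj (e : Multiplicative (ZMod 2)) {b c : Bool} : flip e b = flip e c ↔ b = c := by
  revert e b c; decide

/-- The automorphism of G × K_2 given by an automorphism of G and an element of Z_2. -/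
def lift (G : SimpleGraph V) (x : (G ≃g G) × Multiplicative (ZMod 2)) : timesK2 G ≃g timesK2 G where
  toFun p := (x.1 p.1, flip x.2 p.2)
  invFun p := (x.1.symm p.1, flip x.2 p.2)
  left_inv p := by simp [flip_flip]
  right_inv p := by simp [flip_flip]
  map_rel_iff' := by
    intro p q
    have h : G.Adj (x.1 p.1) (x.1 q.1) ↔ G.Adj p.1 q.1 := x.1.map_rel_iff
    simp [timesK2, flip_inj, h]

/-- `lift` as a homomorphism. -/
def liftHom (G : SimpleGraph V) : ((G ≃g G) × Multiplicative (ZMod 2)) →* (timesK2 G ≃g timesK2 G) where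
  toFun := lift G
  map_one' := by
    ext p
    · simp [lift]
    · simp [lift, flip_one]
  map_mul' x y := by
    apply RelIso.ext
    intro p
    exact Prod.ext rfl (flip_mul _ _ _)

lemma liftHom_injective [Nonempty V] : Function.Injective (liftHom G) := by
  intro x y h
  have h1 : ∀ p, (liftHom G x) p = (liftHom G y) p := fun p => by rw [h]
  have h2 : ∀ p : V × Bool, (x.1 p.1, flip x.2 p.2) = (y.1 p.1, flip y.2 p.2) := h1
  obtain ⟨v⟩ := ‹Nonempty V›
  apply Prod.ext
  · ext w
    exact congrArg Prod.fst (h2 (w, false))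
  · have h3 := congrArg Prod.snd (h2 (v, false))
    have h4 : ∀ e f : Multiplicative (ZMod 2), flip e false = flip f false → e = f := by decide
    exact h4 _ _ h3

/-- If all two-fold automorphisms are trivial, a connected non-bipartite graph is stable. -/
lemma liftHom_surjective (hc : G.Connected) (hb : ¬ G.Colorable 2)
    (hT : ∀ α β : Equiv.Perm V, IsTF G α β → α = β) : Function.Surjective (liftHom G) := by
  classical
  intro φ
  have hadj : ∀ p q : V × Bool, (timesK2 G).Adj (φ p) (φ q) ↔ (timesK2 G).Adj p q :=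
    fun p q => φ.map_rel_iff
  -- side functions
  have hside : ∀ u v : V, G.Adj u v → ∀ i : Bool,
      (((φ (u, i)).2 ^^ i) = ((φ (v, !i)).2 ^^ (!i))) := by
    intro u v huv i
    have h1 : (timesK2 G).Adj (u, i) (v, !i) := ⟨huv, by simp⟩
    have h2 := ((hadj _ _).2 h1).2
    clear h1
    revert h2
    generalize (φ (u, i)).2 = a
    generalize (φ (v, !i)).2 = b
    revert a b i; decide
  set f : V → Bool := fun u => (φ (u, false)).2 with hf
  set g : V → Bool := fun u => !(φ (u, true)).2 with hg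
  have hfg : ∀ u v, G.Adj u v → f u = g v := by
    intro u v huv
    have := hside u v huv false
    simpa [hf, hg] using this
  have hgf : ∀ u v, G.Adj u v → g u = f v := fun u v huv => (hfg v u huv.symm).symm
  have hconst : ∀ u v, G.Reachable u v → ((f u ^^ g u) = (f v ^^ g v)) := by
    intro u v ⟨p⟩
    induction p with
    | nil => rfl
    | cons h p ih =>
      rw [← ih, hfg _ _ h, hgf _ _ h, Bool.xor_comm]
  obtain ⟨v0⟩ := hc.nonempty
  have heq : ∀ u, f u = g u := by
    by_contra hne
    push Not at hne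
    obtain ⟨w, hw⟩ := hne
    apply hb
    have hall : ∀ u, f u ≠ g u := by
      intro u hu
      have := hconst u w (hc.preconnected u w)
      rw [hu, Bool.xor_self] at this
      apply hw
      revert this
      generalize f w = a
      generalize g w = b
      revert a b; decide
    refine ⟨SimpleGraph.Coloring.mk (fun u => if f u then 0 else 1) ?_⟩
    intro u v huv
    have h1 := hfg u v huv
    have h2 := hall v
    rw [← h1] at h2
    revert h2
    generalize f u = a
    generalize f v = b
    revert a b; decide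
  have hconst' : ∀ u v, G.Reachable u v → f u = f v := by
    intro u v ⟨p⟩
    induction p with
    | nil => rfl
    | cons h p ih => rw [← ih, hfg _ _ h, ← heq]
  have hf0 : ∀ u, f u = f v0 := fun u => hconst' u v0 (hc.preconnected u v0)
  -- the flip
  set e : Multiplicative (ZMod 2) := if f v0 then Multiplicative.ofAdd 1 else 1 with he
  have hflip : ∀ u i, flip e (φ (u, i)).2 = i := by
    intro u i
    have h1 := hf0 u
    have h2 := heq u
    rw [h1] at h2
    cases i
    · have h3 : (φ (u, false)).2 = f v0 := h1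
      rw [h3, he]
      generalize f v0 = a
      revert a; decide
    · have h3 : (!(φ (u, true)).2) = f v0 := h2.symm
      have h4 : (φ (u, true)).2 = !(f v0) := by rw [← h3]; simp
      rw [h4, he]
      generalize f v0 = a
      revert a; decide
  set ψ : timesK2 G ≃g timesK2 G := liftHom G (1, e) * φ with hψ
  have hψ2 : ∀ p, (ψ p).2 = p.2 := by
    rintro ⟨u, i⟩
    exact hflip u i
  have hψs2 : ∀ p, (ψ.symm p).2 = p.2 := by
    intro p
    have := hψ2 (ψ.symm p)
    rw [← this]
    simp
  have hψadj : ∀ p q : V × Bool, (timesK2 G).Adj (ψ p) (ψ q) ↔ (timesK2 G).Adj p q :=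
    fun p q => ψ.map_rel_iff
  -- the two parts
  have key : ∀ i, ∃ α : Equiv.Perm V, ∀ u, ψ (u, i) = (α u, i) := by
    intro i
    refine ⟨⟨fun u => (ψ (u, i)).1, fun u => (ψ.symm (u, i)).1, ?_, ?_⟩, ?_⟩
    · intro u
      have h1 : ((ψ (u, i)).1, i) = ψ (u, i) := Prod.ext rfl (hψ2 (u, i)).symm
      change (ψ.symm ((ψ (u, i)).1, i)).1 = u
      rw [h1]; simp
    · intro u
      have h1 : ((ψ.symm (u, i)).1, i) = ψ.symm (u, i) := Prod.ext rfl (hψs2 (u, i)).symm
      change (ψ ((ψ.symm (u, i)).1, i)).1 = u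
      rw [h1]; simp
    · intro u
      exact Prod.ext rfl (hψ2 (u, i))
  obtain ⟨α, hα⟩ := key false
  obtain ⟨β, hβ⟩ := key true
  have hTF : IsTF G α β := by
    intro u v
    have h1 := hψadj (u, false) (v, true)
    rw [hα, hβ] at h1
    simpa [timesK2] using h1.symm
  have hαβ := hT α β hTF
  subst hαβ
  let a : G ≃g G := ⟨α, by intro u v; exact (hTF u v).symm⟩
  refine ⟨(1, e) * (a, 1), ?_⟩
  have h1 : liftHom G (a, 1) = ψ := by
    apply RelIso.ext
    rintro ⟨u, i⟩
    have h2 : (liftHom G (a, 1)) (u, i) = (α u, i) := by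
      change (a u, flip 1 i) = (α u, i)
      rw [flip_one]; rfl
    rw [h2]
    cases i
    · exact (hα u).symm
    · exact (hβ u).symm
  have h5 : liftHom G (1, e) * liftHom G (1, e) = 1 := by
    rw [← map_mul]
    have : ((1, e) : (G ≃g G) × Multiplicative (ZMod 2)) * (1, e) = 1 := by
      apply Prod.ext
      · simp
      · change e * e = 1
        generalize e = e'
        revert e'; decide
    rw [this, map_one]
  rw [map_mul, h1, hψ, ← mul_assoc, h5, one_mul]

/-- An unstable connected non-bipartite graph has a nontrivial two-fold automorphism. -/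
lemma exists_nontrivial (hU : NontriviallyUnstable G) :
    ∃ α β : Equiv.Perm V, IsTF G α β ∧ α ≠ β := by
  by_contra hcon
  push Not at hcon
  obtain ⟨h1, h2, h3, -⟩ := hU
  apply h1
  have := h2.nonempty
  exact ⟨(MulEquiv.ofBijective (liftHom G)
    ⟨liftHom_injective, liftHom_surjective h2 h3 hcon⟩).symm⟩

end TF

section Bridge

variable {n : ℕ} {S : Set (ZMod n)}

lemma circ_adj (hneg : ∀ x ∈ S, -x ∈ S) (h0 : (0 : ZMod n) ∉ S)
    (u v : ZMod n) : (circ S).Adj u v ↔ v - u ∈ S := by
  unfold circ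
  rw [SimpleGraph.fromRel_adj]
  constructor
  · rintro ⟨-, h | h⟩
    · exact h
    · have := hneg _ h
      rwa [neg_sub] at this
  · intro h
    refine ⟨?_, Or.inl h⟩
    rintro rfl
    rw [sub_self] at h
    exact h0 h

open Classical in
/-- indicator function with values in Z_2 -/
noncomputable def ind (S : Set (ZMod n)) (x : ZMod n) : ZMod 2 :=
  if x ∈ S then 1 else 0

lemma ind_eq_one (x : ZMod n) : ind S x = 1 ↔ x ∈ S := by
  unfold ind
  by_cases h : x ∈ S
  · simp [h]
  · simp [h]

lemma ind_congr {x y : ZMod n} (h : x ∈ S ↔ y ∈ S) : ind S x = ind S y := by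
  apply Helper589Four.z2_ext
  rw [ind_eq_one, ind_eq_one, h]

lemma ind_iff {x y : ZMod n} (h : ind S x = ind S y) : x ∈ S ↔ y ∈ S := by
  rw [← ind_eq_one, ← ind_eq_one, h]

lemma mem_evens [NeZero n] [Fact (4 ∣ n)] (x : ZMod n) :
    x ∈ evens n ↔ Helper589Four.par x = 0 := by
  constructor
  · intro h
    obtain ⟨k, hk⟩ := AddSubgroup.mem_zmultiples_iff.1 h
    rw [← hk, zsmul_eq_mul, mul_comm, Helper589Four.par_two_mul]
  · intro h
    obtain ⟨y, hy⟩ := Helper589Four.exists_half h
    rw [hy, two_mul]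
    have h1 : y + y = y.val • (2 : ZMod n) := by
      rw [nsmul_eq_mul, ZMod.natCast_zmod_val]; ring
    rw [h1]
    exact AddSubgroup.nsmul_mem _ (AddSubgroup.mem_zmultiples 2) _

lemma image_evens [NeZero n] [Fact (4 ∣ n)] {α : Equiv.Perm (ZMod n)}
    (hα : ∀ x, Helper589Four.par (α x) = Helper589Four.par x) :
    α '' (evens n : Set (ZMod n)) = evens n := by
  ext x
  constructor
  · rintro ⟨y, hy, rfl⟩
    have h2 := (mem_evens y).1 hy
    exact (mem_evens _).2 (by rw [hα, h2])
  · intro hx
    refine ⟨α.symm x, ?_, by simp⟩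
    apply (mem_evens _).2
    rw [← hα, Equiv.apply_symm_apply]
    exact (mem_evens x).1 hx

/-- **Theorem.** Let h be a positive integer and let Γ = Cay(Z_{4h}, S) be a nontrivially unstable
circulant of Type II. Put T = (S \ {2h}) + 2h. Then Cay(Z_{4h}, T) has an automorphism that
fixes 0 and does not fix 2h. -/
theorem result (h : ℕ) (hpos : 0 < h) (S : Set (ZMod (4 * h))) (hneg : ∀ x ∈ S, -x ∈ S)
    (h0 : (0 : ZMod (4 * h)) ∉ S) (hU : NontriviallyUnstable (circ S))
    (hII : TypeII (circ S)) :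
    ∃ σ : circ {x : ZMod (4 * h) | ∃ s ∈ S, s ≠ ((2 * h : ℕ) : ZMod (4 * h)) ∧
        x = s + ((2 * h : ℕ) : ZMod (4 * h))} ≃g
      circ {x : ZMod (4 * h) | ∃ s ∈ S, s ≠ ((2 * h : ℕ) : ZMod (4 * h)) ∧
        x = s + ((2 * h : ℕ) : ZMod (4 * h))},
      σ 0 = 0 ∧ σ ((2 * h : ℕ) : ZMod (4 * h)) ≠ ((2 * h : ℕ) : ZMod (4 * h)) := by
  have : NeZero (4 * h) := ⟨by omega⟩
  have : Fact (4 ∣ 4 * h) := ⟨Dvd.intro h rfl⟩
  have hadj := circ_adj hneg h0
  have hio : ((2 * h : ℕ) : ZMod (4 * h)) = Helper589Four.io := by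
    rw [Helper589Four.io]; congr 1; omega
  rw [hio]
  have hH : Helper589Four.Hyp (ind S) := by
    refine ⟨?_, ?_, ?_⟩
    · intro x
      apply ind_congr
      constructor
      · intro h
        have := hneg _ h
        rwa [neg_neg] at this
      · exact hneg x
    · intro t ht
      apply hU.2.2.2 t 0
      ext v
      rw [SimpleGraph.mem_neighborSet, SimpleGraph.mem_neighborSet, hadj, hadj, sub_zero]
      have h1 := ht (v - t)
      rw [sub_add_cancel] at h1
      exact (ind_iff h1).symm
    · intro α β hT hα hβ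
      by_contra hne
      apply hII.2 α β ?_ hne
      · exact ⟨image_evens hα, image_evens hβ⟩
      · intro u v
        rw [hadj, hadj]
        exact (ind_iff (hT u v)).symm
  obtain ⟨α, β, hTF, hne⟩ := exists_nontrivial hU
  have hT : Helper589Four.TF (ind S) α β := by
    intro u v
    apply ind_congr
    rw [← hadj, ← hadj]
    exact (hTF u v).symm
  obtain ⟨σ, hσ0, hσi, hσ⟩ := Helper589Four.main_fix hH hT hne
  set T : Set (ZMod (4 * h)) := {x | ∃ s ∈ S, s ≠ Helper589Four.io ∧ x = s + Helper589Four.io}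
    with hTdef
  have hii : (Helper589Four.io : ZMod (4 * h)) + Helper589Four.io = 0 := Helper589Four.io_add_io
  have hTmem : ∀ x, x ∈ T ↔ x ≠ 0 ∧ x + Helper589Four.io ∈ S := by
    intro x
    constructor
    · rintro ⟨s, hs, hs2, rfl⟩
      refine ⟨?_, ?_⟩
      · intro h1
        apply hs2
        linear_combination h1 - hii
      · rw [Helper589Four.add_io_io]; exact hs
    · rintro ⟨h1, h2⟩
      refine ⟨x + Helper589Four.io, h2, ?_, (Helper589Four.add_io_io x).symm⟩
      intro h3
      apply h1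
      linear_combination h3
  have hT0 : (0 : ZMod (4 * h)) ∉ T := fun h1 => ((hTmem 0).1 h1).1 rfl
  have hTneg : ∀ x ∈ T, -x ∈ T := by
    intro x hx
    rw [hTmem] at hx ⊢
    refine ⟨neg_ne_zero.2 hx.1, ?_⟩
    have h1 := hneg _ hx.2
    convert h1 using 1
    linear_combination hii
  have hadjT := circ_adj hTneg hT0
  refine ⟨⟨σ, ?_⟩, hσ0, hσi⟩
  intro x y
  rw [hadjT, hadjT, hTmem, hTmem]
  have h1 := ind_iff (hσ x y)
  have h2 : σ y - σ x ≠ 0 ↔ y - x ≠ 0 := by
    rw [sub_ne_zero, sub_ne_zero]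
    exact σ.injective.ne_iff
  rw [h2, h1]

end Bridge

end Pool.Agent.Results.MP_2c9d40_co.FixedPointMovedInvolution
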